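import Mathlib

/-!
# Every value between `1` and `n!` is the number of products of `n` distinct elements

For all `n` and all `k` with `1 ≤ k ≤ n!` there are a group and pairwise distinct elements
`g₁, …, gₙ` of it such that the `n!` products of the `gᵢ` in all orders take exactly `k` values.
The group is a central extension of `ℤⁿ` by `ℤ/k`.
-/

namespace Pool.Agent.Results.MP_71df81_al.AllValuesAttained

open Finset

/-- The set `P(g₁, …, gₙ)` of all products `g_{σ(1)} ⋯ g_{σ(n)}` over all permutations `σ`. -/
def products {G : Type} [Group G] {n : ℕ} (g : Fin n → G) : Set G :=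
  Set.range fun σ : Equiv.Perm (Fin n) => (List.ofFn fun i => g (σ i)).prod

/-- The cocycle. -/
def B {n : ℕ} (x y : Fin n → ℤ) : ℤ :=
  ∑ j, ∑ i, if i < j then x j * y i * (Nat.factorial (j : ℕ) : ℤ) else 0

lemma B_add_left {n : ℕ} (x x' y : Fin n → ℤ) : B (x + x') y = B x y + B x' y := by
  simp only [B, ← sum_add_distrib]
  refine sum_congr rfl fun j _ => sum_congr rfl fun i _ => ?_
  split_ifs
  · simp only [Pi.add_apply]; ring
  · simp

lemma B_add_right {n : ℕ} (x y y' : Fin n → ℤ) : B x (y + y') = B x y + B x y' := by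
  simp only [B, ← sum_add_distrib]
  refine sum_congr rfl fun j _ => sum_congr rfl fun i _ => ?_
  split_ifs
  · simp only [Pi.add_apply]; ring
  · simp

lemma B_zero_left {n : ℕ} (y : Fin n → ℤ) : B 0 y = 0 := by
  simp [B]

lemma B_zero_right {n : ℕ} (y : Fin n → ℤ) : B y 0 = 0 := by
  simp [B]

lemma B_neg_left {n : ℕ} (x y : Fin n → ℤ) : B (-x) y = - B x y := by
  have h := B_add_left x (-x) y
  rw [add_neg_cancel, B_zero_left] at h
  omega

lemma B_single {n : ℕ} (a b : Fin n) :
    B (Pi.single a 1) (Pi.single b 1) = if b < a then (Nat.factorial (a : ℕ) : ℤ) else 0 := by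
  unfold B
  rw [sum_eq_single a, sum_eq_single b]
  · simp
  · intro i _ hi
    simp [Pi.single_apply, hi]
  · simp
  · intro j _ hj
    simp [Pi.single_apply, hj]
  · simp

/-- The central extension of `ℤⁿ` by `ℤ/k` given by the cocycle `B`. -/
@[ext] structure Ext (n k : ℕ) where
  v : Fin n → ℤ
  c : ZMod k

instance (n k : ℕ) : Mul (Ext n k) := ⟨fun a b => ⟨a.v + b.v, a.c + b.c + (B a.v b.v : ZMod k)⟩⟩
instance (n k : ℕ) : One (Ext n k) := ⟨⟨0, 0⟩⟩
instance (n k : ℕ) : Inv (Ext n k) := ⟨fun a => ⟨-a.v, -a.c + (B a.v a.v : ZMod k)⟩⟩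

lemma mul_def {n k : ℕ} (a b : Ext n k) :
    a * b = ⟨a.v + b.v, a.c + b.c + (B a.v b.v : ZMod k)⟩ := rfl
lemma one_def {n k : ℕ} : (1 : Ext n k) = ⟨0, 0⟩ := rfl
lemma inv_def {n k : ℕ} (a : Ext n k) : a⁻¹ = ⟨-a.v, -a.c + (B a.v a.v : ZMod k)⟩ := rfl

instance instGroupExt (n k : ℕ) : Group (Ext n k) :=
  Group.ofLeftAxioms
    (by
      intro a b c
      simp only [mul_def, Ext.mk.injEq, B_add_left, B_add_right, Int.cast_add]
      exact ⟨by abel, by ring⟩)
    (by
      intro a
      simp only [mul_def, one_def, B_zero_left, Int.cast_zero, zero_add, add_zero])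
    (by
      intro a
      simp only [mul_def, one_def, inv_def, B_neg_left, Int.cast_neg, Ext.mk.injEq]
      exact ⟨by abel, by ring⟩)

/-- The generators. -/
def gen {n k : ℕ} (i : Fin n) : Ext n k := ⟨Pi.single i 1, 0⟩

/-- The weight of a word in the generators. -/
def wt : List ℕ → ℕ
  | [] => 0
  | a :: l => wt l + (l.map (fun b => if b < a then Nat.factorial a else 0)).sum

lemma B_list {n : ℕ} (a : Fin n) (l : List (Fin n)) :
    B (Pi.single a 1) ((l.map fun i => (Pi.single i 1 : Fin n → ℤ)).sum) =
      (((l.map Fin.val).map (fun b => if b < (a : ℕ) then Nat.factorial (a : ℕ) else 0)).sum : ℕ) := by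
  induction l with
  | nil => simp [B_zero_right]
  | cons b l ih =>
    simp only [List.map_cons, List.sum_cons, B_add_right, ih, B_single, Fin.lt_def]
    push_cast
    rfl

lemma prod_list {n k : ℕ} (l : List (Fin n)) :
    (l.map (gen (k := k))).prod =
      ⟨(l.map fun i => (Pi.single i 1 : Fin n → ℤ)).sum, (wt (l.map Fin.val) : ZMod k)⟩ := by
  induction l with
  | nil => simp [one_def, wt]
  | cons a l ih =>
    rw [List.map_cons, List.prod_cons, ih, mul_def]
    simp only [gen, B_list, List.map_cons, List.sum_cons, wt, zero_add, Int.cast_natCast,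
      Nat.cast_add]

lemma wt_insert (a : ℕ) (l₁ l₂ : List ℕ) (h : ∀ b ∈ l₁ ++ l₂, b < a) :
    wt (l₁ ++ a :: l₂) = wt (l₁ ++ l₂) + l₂.length * Nat.factorial a := by
  induction l₁ with
  | nil =>
    simp only [List.nil_append, wt]
    congr 1
    simp only [List.nil_append] at h
    have : l₂.map (fun b => if b < a then Nat.factorial a else 0) =
        l₂.map (fun _ => Nat.factorial a) := by
      apply List.map_congr_left
      intro b hb
      simp [h b hb]
    rw [this]
    simp
  | cons c l₁ ih =>
    simp only [List.cons_append, wt]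
    rw [ih (fun b hb => h b (by
      rw [List.cons_append]; exact List.mem_cons_of_mem _ hb))]
    have hc : ¬ a < c := by
      have := h c (by simp)
      omega
    simp only [List.map_append, List.map_cons, List.sum_append, List.sum_cons, if_neg hc]
    ring

lemma exists_list (n : ℕ) : ∀ m < Nat.factorial n, ∃ l : List ℕ,
    l.Perm (List.range n) ∧ wt l = m := by
  induction n with
  | zero =>
    intro m hm
    refine ⟨[], by simp, ?_⟩
    simp only [Nat.factorial_zero] at hm
    simp only [wt]
    omega
  | succ n ih =>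
    intro m hm
    have hpos := Nat.factorial_pos n
    obtain ⟨l, hl, hw⟩ := ih (m % Nat.factorial n) (Nat.mod_lt _ hpos)
    set q := m / Nat.factorial n with hq
    have hqn : q ≤ n := by
      have : q < n + 1 := by
        rw [hq, Nat.div_lt_iff_lt_mul hpos]
        rwa [Nat.factorial_succ] at hm
      omega
    have hlen : l.length = n := by rw [hl.length_eq, List.length_range]
    have hmem : ∀ b ∈ l, b < n := by
      intro b hb
      exact List.mem_range.mp (hl.mem_iff.mp hb)
    refine ⟨l.take (n - q) ++ n :: l.drop (n - q), ?_, ?_⟩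
    · rw [List.range_succ]
      refine List.perm_middle.trans ?_
      rw [List.take_append_drop]
      exact (List.Perm.cons n hl).trans (List.perm_append_singleton n _).symm
    · rw [wt_insert, List.take_append_drop, hw, List.length_drop, hlen]
      · have h1 : n - (n - q) = q := Nat.sub_sub_self hqn
        rw [h1, hq, mul_comm]
        exact Nat.mod_add_div m _
      · rw [List.take_append_drop]
        exact hmem

lemma exists_perm (n : ℕ) (l : List ℕ) (hl : l.Perm (List.range n)) :
    ∃ σ : Equiv.Perm (Fin n), (List.ofFn σ).map Fin.val = l := by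
  have hlen : l.length = n := by rw [hl.length_eq, List.length_range]
  have hnd : l.Nodup := hl.nodup_iff.mpr List.nodup_range
  have hmem : ∀ b ∈ l, b < n := by
    intro b hb
    exact List.mem_range.mp (hl.mem_iff.mp hb)
  let f : Fin n → Fin n := fun i =>
    ⟨l[(i : ℕ)]'(by rw [hlen]; exact i.2), hmem _ (List.getElem_mem _)⟩
  have hf : Function.Injective f := by
    intro i j hij
    simp only [f, Fin.mk.injEq] at hij
    exact Fin.ext ((hnd.getElem_inj_iff).mp hij)
  refine ⟨Equiv.ofBijective f (Finite.injective_iff_bijective.mp hf), ?_⟩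
  apply List.ext_getElem
  · simp [hlen]
  · intro i h1 h2
    simp [f]

/-- **Every value is attained.**  For all `n` and all `k` with `1 ≤ k ≤ n!` there are a group `G`
and pairwise distinct `g₁, …, gₙ ∈ G` with `|P(g₁, …, gₙ)| = k`. -/
theorem result : ∀ n k : ℕ, 1 ≤ k → k ≤ Nat.factorial n →
    ∃ (G : Type) (_ : Group G) (g : Fin n → G),
      Function.Injective g ∧ (products g).ncard = k := by
  intro n k hk1 hk2
  haveI : NeZero k := ⟨by omega⟩
  refine ⟨Ext n k, inferInstance, gen, ?_, ?_⟩
  · intro i j hij
    simp only [gen, Ext.mk.injEq, and_true] at hij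
    by_contra hne
    have := congrFun hij i
    simp [Pi.single_apply, hne] at this
  · have hset : products (gen (n := n) (k := k)) =
        Set.range (fun c : ZMod k =>
          (⟨((List.finRange n).map fun i => (Pi.single i 1 : Fin n → ℤ)).sum, c⟩ : Ext n k)) := by
      ext x
      constructor
      · rintro ⟨σ, rfl⟩
        refine ⟨(wt ((List.ofFn σ).map Fin.val) : ZMod k), ?_⟩
        have h1 : (List.ofFn fun i => gen (n := n) (k := k) (σ i)) = (List.ofFn σ).map gen := by
          rw [List.map_ofFn]; rfl
        simp only [h1, prod_list]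
        congr 1
        apply List.Perm.sum_eq
        apply List.Perm.map
        rw [List.ofFn_eq_map]
        exact (Equiv.Perm.map_finRange_perm σ).symm
      · rintro ⟨c, rfl⟩
        obtain ⟨l, hl, hw⟩ := exists_list n c.val (lt_of_lt_of_le (ZMod.val_lt c) hk2)
        obtain ⟨σ, hσ⟩ := exists_perm n l hl
        refine ⟨σ, ?_⟩
        have h1 : (List.ofFn fun i => gen (n := n) (k := k) (σ i)) = (List.ofFn σ).map gen := by
          rw [List.map_ofFn]; rfl
        simp only [h1, prod_list, hσ, hw, ZMod.natCast_zmod_val]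
        congr 1
        apply List.Perm.sum_eq
        apply List.Perm.map
        rw [List.ofFn_eq_map]
        exact Equiv.Perm.map_finRange_perm σ
    rw [hset, ← Set.image_univ, Set.ncard_image_of_injective, Set.ncard_univ, Nat.card_zmod]
    intro c d hcd
    simp only [Ext.mk.injEq, true_and] at hcd
    exact hcd

end Pool.Agent.Results.MP_71df81_al.AllValuesAttained
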